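import Pool.Agent.Helper74.COL.Over
import Pool.Agent.Helper85.SC.Main

/-!
# MP_47cd0b: a theorem on all large geometric lattices of rank four, carried to every rank along a
flag of locally free atoms
-/

set_option autoImplicit false
set_option linter.unusedSectionVars false

namespace Pool.Agent.Helper83.RF

open Pool.Agent.Helper28.BPack Pool.Agent.Helper19.TW

/-- The theorem on rank four: at least `n0` atoms are enough. -/
def Big4 (n0 : ℕ) : Prop :=
  ∀ (L : Type) [Lattice L] [BoundedOrder L] [Fintype L] [IsUpperModularLattice L],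
    (∀ x : L, ∃ s : Finset L, (∀ a ∈ s, IsAtom a) ∧ s.sup id = x) →
    Order.height (⊤ : L) = 4 → n0 ≤ {a : L | IsAtom a}.ncard →
    ∃ (t : ℕ) (n : Fin t → ℕ) (φ : ∀ i : Fin t, Set (Fin (n i)) → L),
      (∀ i, Function.Injective (φ i)) ∧
      (∀ i (a b : Set (Fin (n i))), a ⋖ b → φ i a ⋖ φ i b) ∧
      (∀ i, Order.height (⊤ : L) ≤ Order.height (φ i ⊥) + Order.height (φ i ⊤)) ∧
      (∀ x : L, ∃! p : (Σ i : Fin t, Set (Fin (n i))), φ p.1 p.2 = x)

variable {L : Type} [Lattice L] [BoundedOrder L] [Fintype L] [IsUpperModularLattice L]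

/-- Rank four over any element. -/
theorem hasPack_over4 {n0 : ℕ} (big : Big4 n0)
    (hat : ∀ x : L, ∃ s : Finset L, (∀ a ∈ s, IsAtom a) ∧ s.sup id = x) {f : L}
    (hR : rk (⊤ : L) = rk f + 4) (hn : n0 ≤ {u : L | f ⋖ u}.ncard) : HasPack f := by
  classical
  have hum := Pool.Agent.Helper50.TW.ici_um f
  have hatom : ∀ z : Set.Ici f, IsAtom z ↔ f ⋖ (z : L) := by
    intro z
    rw [← bot_covBy_iff, Pool.Agent.Helper50.TW.ici_cov]
    rfl
  have hrt : rk (⊤ : Set.Ici f) = 4 := by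
    have h1 := Pool.Agent.Helper74.COL.rk_Ici (⊤ : Set.Ici f)
    have h2 : ((⊤ : Set.Ici f) : L) = ⊤ := rfl
    rw [h2] at h1
    omega
  have hatI := Pool.Agent.Helper50.TW.ici_atomistic hat f
  apply Pool.Agent.Helper28.TW.hasPack_of_Ici hat f
  refine big (Set.Ici f) hatI (by rw [← coe_rk, hrt]; rfl) ?_
  refine hn.trans ?_
  rw [← Set.ncard_image_of_injective {a : Set.Ici f | IsAtom a} Subtype.val_injective]
  apply Set.ncard_le_ncard _ (Set.toFinite _)
  intro u hu
  exact ⟨⟨u, hu.le⟩, (hatom _).mpr hu, rfl⟩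

/-- **Every rank**: a flag of locally free atoms down to an element of corank four that is covered
by at least `n0` elements. -/
theorem packing_flag4 {n0 : ℕ} (big : Big4 n0)
    (hat : ∀ x : L, ∃ s : Finset L, (∀ a ∈ s, IsAtom a) ∧ s.sup id = x)
    (h : ∃ (m : ℕ) (e : ℕ → L), Order.height (⊤ : L) = m + 4 ∧
      (∀ j < m, IsAtom (e j) ∧ ¬ e j ≤ (Finset.range j).sup e ∧
        ∀ C : Finset L, (∀ b ∈ C, IsAtom b ∧ ¬ e j ≤ (Finset.range j).sup e ⊔ b) →
          e j ≤ (Finset.range j).sup e ⊔ C.sup id → m + 6 ≤ 2 * C.card + j) ∧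
      n0 ≤ {u : L | (Finset.range m).sup e ⋖ u}.ncard) :
    ∃ (t : ℕ) (n : Fin t → ℕ) (φ : ∀ i : Fin t, Set (Fin (n i)) → L),
      (∀ i, Function.Injective (φ i)) ∧
      (∀ i (a b : Set (Fin (n i))), a ⋖ b → φ i a ⋖ φ i b) ∧
      (∀ i, Order.height (⊤ : L) ≤ Order.height (φ i ⊥) + Order.height (φ i ⊤)) ∧
      (∀ x : L, ∃! p : (Σ i : Fin t, Set (Fin (n i))), φ p.1 p.2 = x) := by
  classical
  obtain ⟨m, e, hm, he, hn⟩ := h
  have hm' : rk (⊤ : L) = m + 4 := by
    rw [← coe_rk] at hm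
    exact_mod_cast hm
  have hrke := rk_range_sup m e (fun j hj => (he j hj).1) (fun j hj => (he j hj).2.1)
  have hrm := hrke m le_rfl
  apply HasPack.to_packing
  apply hasPack_flag hat m e (fun j hj => (he j hj).1) (fun j hj => (he j hj).2.1)
  · intro j hj C hC1 hC2 hC3
    have h1 := (he j hj).2.2 C (fun b hb => ⟨hC1 b hb, hC2 b hb⟩) hC3
    rw [hrke j (by omega), hm']
    omega
  · exact hasPack_over4 big hat (by rw [hrm, hm']) hn

end Pool.Agent.Helper83.RF
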